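import Pool.Agent.Lib.MP_571595_lc.MORT.Base

/-!
Module TWO: a product of letters which maps `x0` to `y` contains exactly one turning letter.
-/

set_option autoImplicit false

namespace Pool.Agent.Lib.MP_571595_lc.MORT.H15.Two

open Pool.Agent.Lib.MP_571595_lc.MORT

/-! ### the 2-adic norm -/

lemma pn_add {x y r : ℚ} (hx : padicNorm 2 x ≤ r) (hy : padicNorm 2 y ≤ r) :
    padicNorm 2 (x + y) ≤ r :=
  padicNorm.nonarchimedean.trans (max_le hx hy)

lemma pn_sub {x y r : ℚ} (hx : padicNorm 2 x ≤ r) (hy : padicNorm 2 y ≤ r) :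
    padicNorm 2 (x - y) ≤ r := by
  rw [sub_eq_add_neg]
  exact pn_add hx (by rwa [padicNorm.neg])

lemma pn_mul {x y r : ℚ} (hx : padicNorm 2 x ≤ r) (hy : padicNorm 2 y ≤ 1) :
    padicNorm 2 (x * y) ≤ r := by
  rw [padicNorm.mul]
  have h1 := padicNorm.nonneg (p := 2) x
  calc padicNorm 2 x * padicNorm 2 y ≤ padicNorm 2 x * 1 :=
        mul_le_mul_of_nonneg_left hy h1
    _ ≤ r := by rw [mul_one]; exact hx

lemma pn_mul' {x y r : ℚ} (hx : padicNorm 2 x ≤ 1) (hy : padicNorm 2 y ≤ r) :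
    padicNorm 2 (x * y) ≤ r := by
  rw [mul_comm]; exact pn_mul hy hx

lemma pn_one : padicNorm 2 (1 : ℚ) = 1 := padicNorm.one

lemma pn_two : padicNorm 2 (2 : ℚ) = 1 / 2 := by
  have := padicNorm.padicNorm_p_of_prime (p := 2)
  norm_num at this ⊢
  exact this

/-- close to one: norm one -/
lemma pn_unit {x : ℚ} (hx : padicNorm 2 (x - 1) < 1) : padicNorm 2 x = 1 := by
  have h : x = (x - 1) + 1 := by ring
  rw [h, padicNorm.add_eq_max_of_ne (by rw [pn_one]; exact hx.ne), pn_one]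
  exact max_eq_right hx.le

/-- dominating summand -/
lemma pn_add_eq {x y : ℚ} (h : padicNorm 2 y < padicNorm 2 x) :
    padicNorm 2 (x + y) = padicNorm 2 x := by
  rw [padicNorm.add_eq_max_of_ne h.ne']
  exact max_eq_left h.le

/-! ### congruences -/

/-- `g` is congruent to the identity -/
structure Cong (r : ℚ) (g : G) : Prop where
  h00 : padicNorm 2 ((g : Matrix (Fin 2) (Fin 2) ℚ) 0 0 - 1) ≤ r
  h01 : padicNorm 2 ((g : Matrix (Fin 2) (Fin 2) ℚ) 0 1) ≤ r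
  h10 : padicNorm 2 ((g : Matrix (Fin 2) (Fin 2) ℚ) 1 0) ≤ r
  h11 : padicNorm 2 ((g : Matrix (Fin 2) (Fin 2) ℚ) 1 1 - 1) ≤ r

lemma Cong.mono {r r' : ℚ} {g : G} (h : Cong r g) (hr : r ≤ r') : Cong r' g :=
  ⟨h.h00.trans hr, h.h01.trans hr, h.h10.trans hr, h.h11.trans hr⟩

lemma Cong.le00 {r : ℚ} {g : G} (h : Cong r g) (hr : r ≤ 1) :
    padicNorm 2 ((g : Matrix (Fin 2) (Fin 2) ℚ) 0 0) ≤ 1 := by
  have h1 : (g : Matrix (Fin 2) (Fin 2) ℚ) 0 0 = ((g : Matrix (Fin 2) (Fin 2) ℚ) 0 0 - 1) + 1 := by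
    ring
  rw [h1]
  exact pn_add (h.h00.trans hr) pn_one.le

lemma Cong.le11 {r : ℚ} {g : G} (h : Cong r g) (hr : r ≤ 1) :
    padicNorm 2 ((g : Matrix (Fin 2) (Fin 2) ℚ) 1 1) ≤ 1 := by
  have h1 : (g : Matrix (Fin 2) (Fin 2) ℚ) 1 1 = ((g : Matrix (Fin 2) (Fin 2) ℚ) 1 1 - 1) + 1 := by
    ring
  rw [h1]
  exact pn_add (h.h11.trans hr) pn_one.le

lemma Cong.mul {r : ℚ} (hr : r ≤ 1) {g h : G} (hg : Cong r g) (hh : Cong r h) :
    Cong r (g * h) := by
  have a1 := hg.le00 hr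
  have a2 := hg.le11 hr
  have b1 := hh.le00 hr
  have b2 := hh.le11 hr
  obtain ⟨g1, g2, g3, g4⟩ := hg
  obtain ⟨h1, h2, h3, h4⟩ := hh
  constructor <;> rw [Units.val_mul, Matrix.mul_apply, Fin.sum_univ_two]
  · rw [show ∀ a b c d : ℚ, a * b + c * d - 1 = ((a - 1) * b + (b - 1)) + c * d by intros; ring]
    exact pn_add (pn_add (pn_mul g1 b1) h1) (pn_mul g2 (h3.trans hr))
  · exact pn_add (pn_mul' a1 h2) (pn_mul g2 b2)
  · exact pn_add (pn_mul g3 b1) (pn_mul' a2 h3)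
  · rw [show ∀ a b c d : ℚ, a * b + c * d - 1 = a * b + ((c - 1) * d + (d - 1)) by intros; ring]
    exact pn_add (pn_mul g3 (h2.trans hr)) (pn_add (pn_mul g4 b2) h4)

lemma coe_ElU (b : ℚ) : ((El .U b : G) : Matrix (Fin 2) (Fin 2) ℚ) = !![1, b; 0, 1] := rfl
lemma coe_ElL (b : ℚ) : ((El .L b : G) : Matrix (Fin 2) (Fin 2) ℚ) = !![1, 0; b, 1] := rfl
lemma coe_Dg (t : ℚˣ) : ((Dg t : G) : Matrix (Fin 2) (Fin 2) ℚ) = !![(t : ℚ), 0; 0, 1] := rfl

lemma cong_el {r : ℚ} (hr : 0 ≤ r) (T : Ty) {b : ℚ} (hb : padicNorm 2 b ≤ r) :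
    Cong r (El T b) := by
  cases T
  · constructor <;> rw [coe_ElU] <;> simp [hb, hr]
  · constructor <;> rw [coe_ElL] <;> simp [hb, hr]

lemma cong_dg {r : ℚ} (hr : 0 ≤ r) {t : ℚˣ} (hb : padicNorm 2 ((t : ℚ) - 1) ≤ r) :
    Cong r (Dg t) := by
  constructor <;> rw [coe_Dg] <;> simp [hb, hr]

/-- the diagonal matrix with entry two -/
noncomputable def D2 : G := Dg (Units.mk0 2 two_ne_zero)

lemma coe_D2 : ((D2 : G) : Matrix (Fin 2) (Fin 2) ℚ) = !![2, 0; 0, 1] := rfl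

lemma conjL_mat (A : Matrix (Fin 2) (Fin 2) ℚ) :
    !![1, 0; 1, 1] * A * !![1, 0; -1, 1] =
      !![A 0 0 - A 0 1, A 0 1; A 0 0 + A 1 0 - (A 0 1 + A 1 1), A 0 1 + A 1 1] := by
  conv_lhs => rw [Matrix.eta_fin_two A]
  rw [Matrix.mul_fin_two, Matrix.mul_fin_two]
  ext i j
  fin_cases i <;> fin_cases j <;> simp <;> ring

lemma conjD_mat (A : Matrix (Fin 2) (Fin 2) ℚ) :
    !![1 / 2, 0; 0, 1] * A * !![2, 0; 0, 1] =
      !![A 0 0, A 0 1 / 2; 2 * A 1 0, A 1 1] := by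
  conv_lhs => rw [Matrix.eta_fin_two A]
  rw [Matrix.mul_fin_two, Matrix.mul_fin_two]
  ext i j
  fin_cases i <;> fin_cases j <;> simp <;> ring

/-- conjugation by the elementary matrix -/
lemma cong_conjL (hm : MobStatement) {r : ℚ} {g : G} (hg : Cong r g) :
    Cong r ((El .L (-1))⁻¹ * g * El .L (-1)) := by
  rw [hm.el_inv, neg_neg]
  obtain ⟨g1, g2, g3, g4⟩ := hg
  have hmat : (((El .L 1 * g * El .L (-1) : G)) : Matrix (Fin 2) (Fin 2) ℚ) = _ :=
    conjL_mat (g : Matrix (Fin 2) (Fin 2) ℚ)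
  constructor <;> rw [hmat]
  · simp only [Matrix.of_apply, Matrix.cons_val', Matrix.cons_val_zero, Matrix.cons_val_fin_one]
    rw [show ∀ a b : ℚ, a - b - 1 = (a - 1) - b by intros; ring]
    exact pn_sub g1 g2
  · simpa using g2
  · simp only [Matrix.of_apply, Matrix.cons_val', Matrix.cons_val_zero, Matrix.cons_val_one,
      Matrix.cons_val_fin_one]
    rw [show ∀ a b c d : ℚ, a + c - (b + d) = ((a - 1) + c) - (b + (d - 1)) by intros; ring]
    exact pn_sub (pn_add g1 g3) (pn_add g2 g4)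
  · simp only [Matrix.of_apply, Matrix.cons_val', Matrix.cons_val_one,
      Matrix.cons_val_fin_one]
    rw [show ∀ b d : ℚ, b + d - 1 = b + (d - 1) by intros; ring]
    exact pn_add g2 g4

/-- conjugation by the diagonal matrix -/
lemma cong_conjD (hm : MobStatement) {r : ℚ} {g : G} (hg : Cong r g) :
    Cong (2 * r) (D2⁻¹ * g * D2) := by
  have hr0 : 0 ≤ r := (padicNorm.nonneg _).trans hg.h01
  obtain ⟨g1, g2, g3, g4⟩ := hg
  have hinv : (((D2⁻¹ : G)) : Matrix (Fin 2) (Fin 2) ℚ) = !![1 / 2, 0; 0, 1] := by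
    rw [D2, hm.dg_inv, coe_Dg]
    simp
  have hmat : (((D2⁻¹ * g * D2 : G)) : Matrix (Fin 2) (Fin 2) ℚ) =
      !![(g : Matrix (Fin 2) (Fin 2) ℚ) 0 0, (g : Matrix (Fin 2) (Fin 2) ℚ) 0 1 / 2;
        2 * (g : Matrix (Fin 2) (Fin 2) ℚ) 1 0, (g : Matrix (Fin 2) (Fin 2) ℚ) 1 1] := by
    rw [Units.val_mul, Units.val_mul, hinv, coe_D2]
    exact conjD_mat (g : Matrix (Fin 2) (Fin 2) ℚ)
  constructor <;> rw [hmat]
  · simp only [Matrix.of_apply, Matrix.cons_val', Matrix.cons_val_zero, Matrix.cons_val_fin_one]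
    linarith
  · simp only [Matrix.of_apply, Matrix.cons_val', Matrix.cons_val_zero, Matrix.cons_val_one,
      Matrix.cons_val_fin_one]
    rw [padicNorm.div, pn_two]
    linarith
  · simp only [Matrix.of_apply, Matrix.cons_val', Matrix.cons_val_zero, Matrix.cons_val_one,
      Matrix.cons_val_fin_one]
    rw [padicNorm.mul, pn_two]
    have := padicNorm.nonneg (p := 2) ((g : Matrix (Fin 2) (Fin 2) ℚ) 1 0)
    linarith
  · simp only [Matrix.of_apply, Matrix.cons_val', Matrix.cons_val_one,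
      Matrix.cons_val_fin_one]
    linarith

/-! ### regions -/

/-- the regions -/
def Reg (m : ℕ) (x : OnePoint ℚ) : Prop :=
  ∃ q : ℚ, x = (q : OnePoint ℚ) ∧ ((m = 0 ∧ padicNorm 2 q = 2) ∨ (m = 1 ∧ padicNorm 2 q = 1) ∨
    (2 ≤ m ∧ padicNorm 2 q ≤ 1 / 2))

/-- the region at infinity -/
def RegI (x : OnePoint ℚ) : Prop :=
  x = OnePoint.infty ∨ ∃ q : ℚ, x = (q : OnePoint ℚ) ∧ 8 ≤ padicNorm 2 q

lemma cong_reg {g : G} (hg : Cong (1 / 4) g) {m : ℕ} {x : OnePoint ℚ} (hx : Reg m x) :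
    Reg m (g • x) := by
  obtain ⟨g1, g2, g3, g4⟩ := hg
  obtain ⟨q, rfl, hq⟩ := hx
  have u1 : padicNorm 2 ((g : Matrix (Fin 2) (Fin 2) ℚ) 0 0) = 1 := pn_unit (by linarith)
  have u2 : padicNorm 2 ((g : Matrix (Fin 2) (Fin 2) ℚ) 1 1) = 1 := pn_unit (by linarith)
  have hq2 : padicNorm 2 q ≤ 2 := by
    rcases hq with ⟨-, h⟩ | ⟨-, h⟩ | ⟨-, h⟩ <;> linarith
  have hden : padicNorm 2 ((g : Matrix (Fin 2) (Fin 2) ℚ) 1 0 * q +
      (g : Matrix (Fin 2) (Fin 2) ℚ) 1 1) = 1 := by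
    rw [add_comm, pn_add_eq, u2]
    rw [u2, padicNorm.mul]
    have h1 := padicNorm.nonneg (p := 2) ((g : Matrix (Fin 2) (Fin 2) ℚ) 1 0)
    have h2 := padicNorm.nonneg (p := 2) q
    nlinarith
  have hden0 : (g : Matrix (Fin 2) (Fin 2) ℚ) 1 0 * q + (g : Matrix (Fin 2) (Fin 2) ℚ) 1 1 ≠ 0 := by
    intro h0
    rw [h0, padicNorm.zero] at hden
    exact one_ne_zero hden.symm
  refine ⟨((g : Matrix (Fin 2) (Fin 2) ℚ) 0 0 * q + (g : Matrix (Fin 2) (Fin 2) ℚ) 0 1) /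
    ((g : Matrix (Fin 2) (Fin 2) ℚ) 1 0 * q + (g : Matrix (Fin 2) (Fin 2) ℚ) 1 1), ?_, ?_⟩
  · rw [OnePoint.smul_some_eq_ite, if_neg hden0]
  · rw [padicNorm.div, hden, div_one]
    have hmul : padicNorm 2 ((g : Matrix (Fin 2) (Fin 2) ℚ) 0 0 * q) = padicNorm 2 q := by
      rw [padicNorm.mul, u1, one_mul]
    rcases hq with ⟨h0, h⟩ | ⟨h0, h⟩ | ⟨h0, h⟩
    · left
      refine ⟨h0, ?_⟩
      rw [pn_add_eq, hmul, h]
      rw [hmul, h]; linarith
    · right; left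
      refine ⟨h0, ?_⟩
      rw [pn_add_eq, hmul, h]
      rw [hmul, h]; linarith
    · right; right
      refine ⟨h0, pn_add ?_ (by linarith)⟩
      rw [hmul]; exact h

lemma d2_reg {m : ℕ} {x : OnePoint ℚ} (hx : Reg m x) : Reg (m + 1) (D2 • x) := by
  obtain ⟨q, rfl, hq⟩ := hx
  refine ⟨2 * q, ?_, ?_⟩
  · rw [OnePoint.smul_some_eq_ite]
    simp [coe_D2]
  · rw [padicNorm.mul, pn_two]
    rcases hq with ⟨h0, h⟩ | ⟨h0, h⟩ | ⟨h0, h⟩
    · right; left
      exact ⟨by omega, by rw [h]; norm_num⟩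
    · right; right
      exact ⟨by omega, by rw [h]; norm_num⟩
    · right; right
      exact ⟨by omega, by linarith⟩

lemma cong_regI {g : G} (hg : Cong (1 / 8) g) {x : OnePoint ℚ} (hx : RegI x) :
    RegI (g • x) := by
  obtain ⟨g1, g2, g3, g4⟩ := hg
  have u1 : padicNorm 2 ((g : Matrix (Fin 2) (Fin 2) ℚ) 0 0) = 1 := pn_unit (by linarith)
  have u2 : padicNorm 2 ((g : Matrix (Fin 2) (Fin 2) ℚ) 1 1) = 1 := pn_unit (by linarith)
  rcases hx with rfl | ⟨q, rfl, hq⟩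
  · rw [OnePoint.smul_infty_eq_ite]
    split_ifs with h
    · exact Or.inl rfl
    · right
      refine ⟨_, rfl, ?_⟩
      rw [padicNorm.div, u1]
      have h3 : 0 < padicNorm 2 ((g : Matrix (Fin 2) (Fin 2) ℚ) 1 0) :=
        lt_of_le_of_ne (padicNorm.nonneg _) (Ne.symm (padicNorm.nonzero h))
      rw [le_div_iff₀ h3]
      linarith
  · rw [OnePoint.smul_some_eq_ite]
    split_ifs with h
    · exact Or.inl rfl
    · right
      refine ⟨_, rfl, ?_⟩
      have h3 : 0 < padicNorm 2 ((g : Matrix (Fin 2) (Fin 2) ℚ) 1 0 * q +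
          (g : Matrix (Fin 2) (Fin 2) ℚ) 1 1) :=
        lt_of_le_of_ne (padicNorm.nonneg _) (Ne.symm (padicNorm.nonzero h))
      have hmul : padicNorm 2 ((g : Matrix (Fin 2) (Fin 2) ℚ) 0 0 * q) = padicNorm 2 q := by
        rw [padicNorm.mul, u1, one_mul]
      have hnum : padicNorm 2 ((g : Matrix (Fin 2) (Fin 2) ℚ) 0 0 * q +
          (g : Matrix (Fin 2) (Fin 2) ℚ) 0 1) = padicNorm 2 q := by
        rw [pn_add_eq, hmul]
        rw [hmul]; linarith
      have hden : padicNorm 2 ((g : Matrix (Fin 2) (Fin 2) ℚ) 1 0 * q +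
          (g : Matrix (Fin 2) (Fin 2) ℚ) 1 1) ≤ padicNorm 2 q / 8 := by
        refine pn_add ?_ (by rw [u2]; linarith)
        rw [padicNorm.mul]
        have h1 := padicNorm.nonneg (p := 2) ((g : Matrix (Fin 2) (Fin 2) ℚ) 1 0)
        nlinarith
      rw [padicNorm.div, hnum, le_div_iff₀ h3]
      linarith

lemma elL_regI {x : OnePoint ℚ} (hx : RegI x) : Reg 1 (El .L 1 • x) := by
  rcases hx with rfl | ⟨q, rfl, hq⟩
  · refine ⟨1, ?_, Or.inr (Or.inl ⟨rfl, pn_one⟩)⟩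
    rw [OnePoint.smul_infty_eq_ite]
    simp [coe_ElL]
  · have h1 : padicNorm 2 (q + 1) = padicNorm 2 q := by
      apply pn_add_eq
      rw [pn_one]; linarith
    have h0 : q + 1 ≠ 0 := by
      intro h0
      rw [h0, padicNorm.zero] at h1
      linarith
    refine ⟨q / (q + 1), ?_, Or.inr (Or.inl ⟨rfl, ?_⟩)⟩
    · rw [OnePoint.smul_some_eq_ite]
      simp [coe_ElL, h0]
    · rw [padicNorm.div, h1, div_self]
      linarith

lemma d2inv_reg (hm : MobStatement) {x : OnePoint ℚ} (hx : Reg 1 x) : Reg 0 (D2⁻¹ • x) := by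
  obtain ⟨q, rfl, hq⟩ := hx
  have hq1 : padicNorm 2 q = 1 := by
    rcases hq with ⟨h0, h⟩ | ⟨h0, h⟩ | ⟨h0, h⟩
    · omega
    · exact h
    · omega
  refine ⟨q / 2, ?_, Or.inl ⟨rfl, ?_⟩⟩
  · rw [D2, hm.dg_inv, OnePoint.smul_some_eq_ite]
    simp [coe_Dg, div_eq_inv_mul]
  · rw [padicNorm.div, pn_two, hq1]; norm_num

lemma reg_one {m : ℕ} {x : OnePoint ℚ} (h1 : Reg m x) (h2 : Reg 1 x) : m = 1 := by
  obtain ⟨q, rfl, hq⟩ := h1
  obtain ⟨q', hq', hq2⟩ := h2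
  rw [OnePoint.coe_eq_coe] at hq'
  subst hq'
  have hq1 : padicNorm 2 q = 1 := by
    rcases hq2 with ⟨h0, h⟩ | ⟨h0, h⟩ | ⟨h0, h⟩
    · omega
    · exact h
    · omega
  rcases hq with ⟨h0, h⟩ | ⟨h0, h⟩ | ⟨h0, h⟩
  · rw [hq1] at h; norm_num at h
  · exact h0
  · rw [hq1] at h; norm_num at h

/-! ### letters -/

section
variable {J Q R : Type} [Fintype J] {C : CM J Q R} (D : Data C)

/-- the main part of a coding matrix -/
noncomputable def Kc (a : St Q R) : G := El a.ty (D.k a) * El a.ty.op (D.k' a)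

lemma cong_K (a : St Q R) : Cong (1 / 8) (Kc D a) :=
  (cong_el (by norm_num) _ (D.two_k a)).mul (by norm_num) (cong_el (by norm_num) _ (D.two_k' a))

lemma cong_Kinv (hm : MobStatement) (a : St Q R) : Cong (1 / 8) (Kc D a)⁻¹ := by
  rw [Kc, mul_inv_rev, hm.el_inv, hm.el_inv]
  exact (cong_el (by norm_num) _ (by rw [padicNorm.neg]; exact D.two_k' a)).mul (by norm_num)
    (cong_el (by norm_num) _ (by rw [padicNorm.neg]; exact D.two_k a))

lemma Cm_desc (a : St Q R) (h : a.asc = false) : D.Cm a = Kc D a * El .L (-1) := by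
  simp [Data.Cm, Kc, h]

lemma Cm_asc (a : St Q R) (h : a.asc = true) : D.Cm a = Kc D a * El .L (-1) * D2 := by
  simp [Data.Cm, Kc, h, D2]

lemma cong_mid (hm : MobStatement) {g : G} (hg : Cong (1 / 8) g) (a b : St Q R) :
    Cong (1 / 8) ((El .L (-1))⁻¹ * ((Kc D a)⁻¹ * g * Kc D b) * El .L (-1)) :=
  cong_conjL hm (((cong_Kinv D hm a).mul (by norm_num) hg).mul (by norm_num) (cong_K D b))

variable [DecidableEq J]

lemma cong_g (τ : Tr J Q R) : Cong (1 / 8) (D.g τ) := by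
  have h8 : (0 : ℚ) ≤ 1 / 8 := by norm_num
  have h1 : (1 / 8 : ℚ) ≤ 1 := by norm_num
  have hs := D.two_s
  have hp := D.two_p
  have hs' : padicNorm 2 (-D.s) ≤ 1 / 8 := by rw [padicNorm.neg]; exact hs
  have hp' : padicNorm 2 (-D.p) ≤ 1 / 8 := by rw [padicNorm.neg]; exact hp
  cases τ
  · exact cong_dg h8 (D.two_rho _)
  · exact (cong_el h8 _ hp).mul h1 (cong_el h8 _ hp)
  · exact cong_dg h8 (D.two_rho _)
  · exact ((cong_el h8 _ hs).mul h1 (cong_dg h8 (D.two_rho _))).mul h1 (cong_el h8 _ hs)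
  · exact (cong_el h8 _ hs).mul h1 (cong_el h8 _ hs)
  · exact cong_dg h8 (D.two_rho _)
  · exact (cong_el h8 _ hp').mul h1 (cong_el h8 _ hp')
  · exact cong_dg h8 (D.two_rho _)
  · exact (cong_el h8 _ hs').mul h1 (cong_el h8 _ hs')

omit [Fintype J] [DecidableEq J] in
lemma asc_eq (τ : Tr J Q R) : (τ.a C).asc = (τ.b C).asc := by cases τ <;> rfl

lemma cong_letter (hm : MobStatement) (τ : Tr J Q R) : Cong (1 / 4) (D.Mt false τ) := by
  have hg := cong_g D τ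
  have hasc := asc_eq (C := C) τ
  show Cong (1 / 4) ((D.Cm (τ.a C))⁻¹ * D.g τ * D.Cm (τ.b C))
  rcases h : (τ.a C).asc with _ | _
  · rw [h] at hasc
    rw [Cm_desc D _ h, Cm_desc D _ hasc.symm]
    have h1 : (Kc D (τ.a C) * El .L (-1))⁻¹ * D.g τ * (Kc D (τ.b C) * El .L (-1)) =
        (El .L (-1))⁻¹ * ((Kc D (τ.a C))⁻¹ * D.g τ * Kc D (τ.b C)) * El .L (-1) := by
      rw [mul_inv_rev]; simp only [mul_assoc]
    rw [h1]
    exact (cong_mid D hm hg _ _).mono (by norm_num)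
  · rw [h] at hasc
    rw [Cm_asc D _ h, Cm_asc D _ hasc.symm]
    have h1 : (Kc D (τ.a C) * El .L (-1) * D2)⁻¹ * D.g τ * (Kc D (τ.b C) * El .L (-1) * D2) =
        D2⁻¹ * ((El .L (-1))⁻¹ * ((Kc D (τ.a C))⁻¹ * D.g τ * Kc D (τ.b C)) * El .L (-1)) * D2 := by
      rw [mul_inv_rev, mul_inv_rev]; simp only [mul_assoc]
    rw [h1]
    exact (cong_conjD hm (cong_mid D hm hg _ _)).mono (by norm_num)

omit [DecidableEq J] in
lemma turn_letter (hm : MobStatement) : ∃ K : G, Cong (1 / 4) K ∧ D.MT = K * D2 := by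
  refine ⟨(El .L (-1))⁻¹ * ((Kc D (.U C.qh))⁻¹ * El .U (D.p - D.s) * Kc D .AU) * El .L (-1),
    (cong_mid D hm (cong_el (by norm_num) _ (pn_sub D.two_p D.two_s)) _ _).mono (by norm_num), ?_⟩
  rw [Data.MT, Cm_desc D (.U C.qh) rfl, Cm_asc D .AU rfl, mul_inv_rev]
  simp only [mul_assoc]

/-- number of turning letters -/
def cnt {α : Type} : List (Option α) → ℕ
  | [] => 0
  | none :: t => cnt t + 1
  | some _ :: t => cnt t

lemma cnt_zero {α : Type} (w : List (Option α)) (h : cnt w = 0) : ∃ v : List α, w = v.map some := by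
  induction w with
  | nil => exact ⟨[], rfl⟩
  | cons x t ih =>
    cases x with
    | none => simp [cnt] at h
    | some y =>
      obtain ⟨v, rfl⟩ := ih h
      exact ⟨y :: v, rfl⟩

lemma cnt_one {α : Type} (w : List (Option α)) (h : cnt w = 1) :
    ∃ v₁ v₂ : List α, w = v₁.map some ++ none :: v₂.map some := by
  induction w with
  | nil => simp [cnt] at h
  | cons x t ih =>
    cases x with
    | none =>
      obtain ⟨v, hv⟩ := cnt_zero t (by simpa [cnt] using h)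
      exact ⟨[], v, by rw [hv]; rfl⟩
    | some y =>
      obtain ⟨v₁, v₂, rfl⟩ := ih h
      exact ⟨y :: v₁, v₂, rfl⟩

lemma regI_pt {z : ℚ} (hz : z ≠ 0) (h : padicNorm 2 z ≤ 1 / 8) : RegI (pt .L z) := by
  right
  refine ⟨z⁻¹, rfl, ?_⟩
  have h3 : 0 < padicNorm 2 z :=
    lt_of_le_of_ne (padicNorm.nonneg _) (Ne.symm (padicNorm.nonzero hz))
  rw [show z⁻¹ = 1 / z by rw [one_div], padicNorm.div, pn_one, le_div_iff₀ h3]
  linarith

/-- Module TWO. -/
theorem two (hm : MobStatement) : TwoStatement := by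
  intro J Q R _ _ C D c0 w hw
  have hstart : Reg 0 (D.pe c0 false) := by
    show Reg 0 ((D.Cm .AL)⁻¹ • pt .L (-D.s))
    have h1 : (D.Cm .AL)⁻¹ = D2⁻¹ * (El .L 1 * (Kc D .AL)⁻¹) := by
      rw [Cm_asc D .AL rfl, mul_inv_rev, mul_inv_rev, hm.el_inv, neg_neg]
    rw [h1, mul_smul, mul_smul]
    exact d2inv_reg hm (elL_regI (cong_regI (cong_Kinv D hm _)
      (regI_pt (neg_ne_zero.2 D.s_ne) (by rw [padicNorm.neg]; exact D.two_s))))
  have hend : Reg 1 (D.pe c0 true) := by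
    show Reg 1 ((D.Cm .q0)⁻¹ • pt .L (-(D.p * (D.rho (toZ c0) : ℚ))))
    have h1 : (D.Cm .q0)⁻¹ = El .L 1 * (Kc D .q0)⁻¹ := by
      rw [Cm_desc D .q0 rfl, mul_inv_rev, hm.el_inv, neg_neg]
    rw [h1, mul_smul]
    refine elL_regI (cong_regI (cong_Kinv D hm _) (regI_pt ?_ ?_))
    · exact neg_ne_zero.2 (mul_ne_zero D.p_ne (Units.ne_zero _))
    · rw [padicNorm.neg]
      refine pn_mul D.two_p (pn_unit ?_).le
      exact (D.two_rho _).trans_lt (by norm_num)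
  have key : ∀ w : List (Option (Tr J Q R)),
      Reg (cnt w) ((w.map D.letter).prod • D.pe c0 false) := by
    intro w
    induction w with
    | nil => simpa [cnt] using hstart
    | cons x t ih =>
      rw [List.map_cons, List.prod_cons, mul_smul]
      cases x with
      | none =>
        obtain ⟨K, hK, hMT⟩ := turn_letter D hm
        show Reg (cnt t + 1) (D.MT • _)
        rw [hMT, mul_smul]
        exact cong_reg hK (d2_reg ih)
      | some τ => exact cong_reg (cong_letter D hm τ) ih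
  have h := key w
  rw [hw] at h
  exact cnt_one w (reg_one h hend)

end

end Pool.Agent.Lib.MP_571595_lc.MORT.H15.Two
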