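import Pool.Agent.Lib.MP_571595_lc.MORT.Base

/-!
Module MOB: the action on the projective line in coordinates.
-/

set_option autoImplicit false

namespace Pool.Agent.Lib.MP_571595_lc.MORT.H15

open Pool.Agent.Lib.MP_571595_lc.MORT

lemma coe_ElU (b : ℚ) : ((El .U b : G) : Matrix (Fin 2) (Fin 2) ℚ) = !![1, b; 0, 1] := rfl
lemma coe_ElL (b : ℚ) : ((El .L b : G) : Matrix (Fin 2) (Fin 2) ℚ) = !![1, 0; b, 1] := rfl
lemma coe_Dg (t : ℚˣ) : ((Dg t : G) : Matrix (Fin 2) (Fin 2) ℚ) = !![(t : ℚ), 0; 0, 1] := rfl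

lemma el_mul (T : Ty) (b c : ℚ) : El T b * El T c = El T (b + c) := by
  apply Units.ext
  cases T
  · rw [Units.val_mul, coe_ElU, coe_ElU, coe_ElU, Matrix.mul_fin_two]
    simp [add_comm]
  · rw [Units.val_mul, coe_ElL, coe_ElL, coe_ElL, Matrix.mul_fin_two]
    simp

lemma el_zero (T : Ty) : El T 0 = 1 := by
  apply Units.ext
  cases T
  · rw [coe_ElU, Units.val_one, Matrix.one_fin_two]
  · rw [coe_ElL, Units.val_one, Matrix.one_fin_two]

lemma dg_mul (t u : ℚˣ) : Dg t * Dg u = Dg (t * u) := by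
  apply Units.ext
  rw [Units.val_mul, coe_Dg, coe_Dg, coe_Dg, Matrix.mul_fin_two]
  simp

lemma dg_one : Dg 1 = 1 := by
  apply Units.ext
  show !![((1 : ℚˣ) : ℚ), 0; 0, 1] = (1 : Matrix (Fin 2) (Fin 2) ℚ)
  rw [Units.val_one, Matrix.one_fin_two]

/-- Module MOB. -/
theorem mob : MobStatement where
  el_pt := by
    intro T b z hz hzb
    cases T
    · show El .U b • ((z : ℚ) : OnePoint ℚ) = ((z + b : ℚ) : OnePoint ℚ)
      rw [OnePoint.smul_some_eq_ite]
      simp [coe_ElU]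
    · show El .L b • ((z⁻¹ : ℚ) : OnePoint ℚ) = (((z + b)⁻¹ : ℚ) : OnePoint ℚ)
      rw [OnePoint.smul_some_eq_ite]
      simp only [coe_ElL]
      have h1 : b * z⁻¹ + 1 = (z + b) / z := by field_simp; ring
      have h2 : b * z⁻¹ + 1 ≠ 0 := by
        rw [h1]; exact div_ne_zero hzb hz
      simp only [Matrix.of_apply, Matrix.cons_val', Matrix.cons_val_zero, Matrix.cons_val_one,
        Matrix.cons_val_fin_one]
      rw [if_neg h2, OnePoint.coe_eq_coe, h1]
      field_simp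
      ring
  dg_pt := by
    intro t T z hz
    have ht : (t : ℚ) ≠ 0 := t.ne_zero
    cases T
    · show Dg t • ((z : ℚ) : OnePoint ℚ) = (((t : ℚ) ^ (1 : ℤ) * z : ℚ) : OnePoint ℚ)
      rw [OnePoint.smul_some_eq_ite]
      simp [coe_Dg]
    · show Dg t • ((z⁻¹ : ℚ) : OnePoint ℚ) = ((((t : ℚ) ^ (-1 : ℤ) * z)⁻¹ : ℚ) : OnePoint ℚ)
      rw [OnePoint.smul_some_eq_ite]
      simp [coe_Dg, mul_comm]
  pt_op := by
    intro T z
    cases T
    · rfl
    · show ((z : ℚ) : OnePoint ℚ) = (((z⁻¹)⁻¹ : ℚ) : OnePoint ℚ)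
      rw [inv_inv]
  coord_pt := by
    intro T z
    cases T
    · rfl
    · show (z⁻¹)⁻¹ = z
      rw [inv_inv]
  el_mul := el_mul
  el_inv := by
    intro T b
    rw [inv_eq_iff_mul_eq_one, el_mul, add_neg_cancel, el_zero]
  dg_mul := dg_mul
  dg_inv := by
    intro t
    rw [inv_eq_iff_mul_eq_one, dg_mul, mul_inv_cancel, dg_one]

end Pool.Agent.Lib.MP_571595_lc.MORT.H15
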